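import Pool.Agent.HIK.Stmts

/-! Module CST of HIK: the embedding of `K` into the constants. -/

set_option autoImplicit false

namespace Pool.Agent.HIK.H79

open Polynomial NumberField Pool.Agent.MTL Pool.Agent.HIK

/-- every root of a rational polynomial in the algebraic closure of `ℚ` is the value of a root in
`BB` -/
theorem root_lift (π : BB →+* QB) (f : ℚ[X]) (hmon : f.Monic) (y : QB)
    (hy : eval y (f.map (algebraMap ℚ QB)) = 0) :
    ∃ b : BB, eval b ((f.map (algebraMap ℚ ℚ[X])).map (algebraMap ℚ[X] BB)) = 0 ∧ π b = y := by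
  obtain ⟨F, hF⟩ : ∃ F : BB[X], F = (f.map (algebraMap ℚ ℚ[X])).map (algebraMap ℚ[X] BB) :=
    ⟨_, rfl⟩
  have hFmon : F.Monic := by
    rw [hF]
    exact (hmon.map _).map _
  have hsplit : (F.map (algebraMap BB Om)).Splits := IsAlgClosed.splits _
  have hroot : ∀ z ∈ (F.map (algebraMap BB Om)).roots, z ∈ BB := by
    intro z hz
    have h1 : IsIntegral ℚ[X] z := by
      refine ⟨f.map (algebraMap ℚ ℚ[X]), hmon.map _, ?_⟩
      have h2 := (Polynomial.mem_roots'.1 hz).2
      rw [IsRoot, hF, eval_map, eval₂_map] at h2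
      exact h2
    exact h1
  have hprod : F.map (algebraMap BB Om) =
      ((F.map (algebraMap BB Om)).roots.map fun a => X - C a).prod := by
    exact (Polynomial.Splits.eq_prod_roots_of_monic hsplit (hFmon.map _))
  obtain ⟨s, hs⟩ : ∃ s : Multiset BB, s.map (fun b : BB => (b : Om)) =
      (F.map (algebraMap BB Om)).roots := by
    refine ⟨(F.map (algebraMap BB Om)).roots.pmap (fun z hz => ⟨z, hz⟩) hroot, ?_⟩
    rw [Multiset.map_pmap, Multiset.pmap_eq_map, Multiset.map_id']
  have h7 : F = (s.map fun b => X - C b).prod := by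
    apply Polynomial.map_injective (algebraMap BB Om) Subtype.val_injective
    rw [hprod, ← hs, Polynomial.map_multiset_prod, Multiset.map_map, Multiset.map_map]
    refine congrArg _ (Multiset.map_congr rfl fun b _ => ?_)
    change X - C (b : Om) = Polynomial.map (algebraMap BB Om) (X - C b)
    rw [Polynomial.map_sub, Polynomial.map_X, Polynomial.map_C]
    rfl
  have h5 : F.map π = f.map (algebraMap ℚ QB) := by
    rw [hF, Polynomial.map_map, Polynomial.map_map]
    exact congrArg (fun φ => f.map φ) (Subsingleton.elim _ _)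
  have h6 : eval y (F.map π) = 0 := by
    rw [h5]
    exact hy
  have h8 : eval y (F.map π) = (s.map fun b => y - π b).prod := by
    rw [h7, Polynomial.map_multiset_prod, Multiset.map_map, eval_multiset_prod, Multiset.map_map]
    refine congrArg _ (Multiset.map_congr rfl fun b _ => ?_)
    simp
  rw [h8, Multiset.prod_eq_zero_iff, Multiset.mem_map] at h6
  obtain ⟨b, hbs, hb⟩ := h6
  refine ⟨b, ?_, (sub_eq_zero.1 hb).symm⟩
  rw [← hF, h7, eval_multiset_prod, Multiset.prod_eq_zero_iff, Multiset.map_map, Multiset.mem_map]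
  exact ⟨b, hbs, by simp⟩

theorem cst : CstStmt := by
  intro K _ _ ψ π
  let pb := Field.powerBasisOfFiniteOfSeparable ℚ K
  have hint : IsIntegral ℚ pb.gen := pb.isIntegral_gen
  obtain ⟨b, hb, hπb⟩ := root_lift π (minpoly ℚ pb.gen) (minpoly.monic hint) (ψ pb.gen) (by
    have h1 : (minpoly ℚ pb.gen).map (algebraMap ℚ QB) =
        ((minpoly ℚ pb.gen).map (algebraMap ℚ K)).map ψ := by
      rw [Polynomial.map_map]
      exact congrArg (fun φ => (minpoly ℚ pb.gen).map φ) (Subsingleton.elim _ _)
    rw [h1, Polynomial.eval_map, Polynomial.eval₂_at_apply, Polynomial.eval_map,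
      ← Polynomial.aeval_def, minpoly.aeval, map_zero])
  have hroot : aeval (b : Om) (minpoly ℚ pb.gen) = 0 := by
    have h1 := congrArg (algebraMap BB Om) hb
    rw [map_zero, ← Polynomial.eval₂_at_apply, ← Polynomial.eval_map, Polynomial.map_map,
      Polynomial.map_map] at h1
    rw [Polynomial.aeval_def, ← Polynomial.eval_map]
    have h2 : ((algebraMap BB Om).comp (algebraMap ℚ[X] BB)).comp (algebraMap ℚ ℚ[X]) =
        algebraMap ℚ Om := Subsingleton.elim _ _
    rw [h2] at h1
    exact h1
  refine ⟨(pb.lift (b : Om) hroot : K →+* Om), fun c => ?_⟩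
  obtain ⟨g, rfl⟩ := pb.exists_eq_aeval' c
  refine ⟨eval b ((g.map (algebraMap ℚ ℚ[X])).map (algebraMap ℚ[X] BB)), ?_, ?_⟩
  · change algebraMap BB Om _ = (pb.lift (b : Om) hroot) (aeval pb.gen g)
    rw [PowerBasis.lift_aeval, ← Polynomial.eval₂_at_apply, ← Polynomial.eval_map,
      Polynomial.map_map, Polynomial.map_map, Polynomial.aeval_def, ← Polynomial.eval_map]
    have h2 : ((algebraMap BB Om).comp (algebraMap ℚ[X] BB)).comp (algebraMap ℚ ℚ[X]) =
        algebraMap ℚ Om := Subsingleton.elim _ _
    rw [h2]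
    rfl
  · rw [← Polynomial.eval₂_at_apply, ← Polynomial.eval_map, Polynomial.map_map,
      Polynomial.map_map, hπb, Polynomial.aeval_def, Polynomial.eval₂_eq_eval_map,
      ← Polynomial.eval₂_at_apply, ← Polynomial.eval_map, Polynomial.map_map]
    exact congrArg (fun φ => eval (ψ pb.gen) (g.map φ)) (Subsingleton.elim _ _)

end Pool.Agent.HIK.H79
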